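import Mathlib
import Pool.Agent.Helper802.CentDefs
import Pool.Agent.Helper802.MainProof

set_option autoImplicit false

open scoped Manifold ContDiff Topology

namespace Pool.Agent.Results.MP_96d1d5_an.TransitiveNonLieCentralizer

open Pool.Agent.Helper802

/-- There are a closed connected smooth manifold `M` and a smooth diffeomorphism `f` of `M` with a
dense orbit whose centralizer in the group of smooth diffeomorphisms of `M` (with the smooth
topology) is not a central extension of a Lie group. In the proof `M` is the three-torus. -/
theorem result :
    ∃ (E : Type) (_ : NormedAddCommGroup E) (_ : NormedSpace ℝ E) (_ : FiniteDimensional ℝ E)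
      (H : Type) (_ : TopologicalSpace H) (I : ModelWithCorners ℝ E H) (_ : I.Boundaryless)
      (M : Type) (_ : TopologicalSpace M) (_ : ChartedSpace H M) (_ : IsManifold I ∞ M)
      (_ : CompactSpace M) (_ : T2Space M) (_ : ConnectedSpace M) (f : M ≃ₘ⟮I, I⟯ M),
      IsTransitive f ∧ ¬ IsCentralExtensionOfLieGroup (Subgroup.centralizer {f}) := by
  have hc : ConnectedSpace Circle := by
    have : Function.Surjective e := e_surj
    exact this.connectedSpace continuous_e
  obtain ⟨f, hf, hf'⟩ := main_theorem
  exact ⟨_, _, _, inferInstance, _, _, _, inferInstance, _, _, _, inferInstance, inferInstance,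
    inferInstance, inferInstance, f, hf, hf'⟩

end Pool.Agent.Results.MP_96d1d5_an.TransitiveNonLieCentralizer
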